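import Mathlib

/-!
# Integer polynomials of bounded degree and height; determinants
-/

set_option autoImplicit false

namespace Pool.Agent.N449.LZ

open Polynomial Finset

/-- degree at most `D`, coefficients at most `H` -/
def Bnd (D H : ℕ) (P : ℤ[X]) : Prop := P.natDegree ≤ D ∧ ∀ j, |P.coeff j| ≤ H

theorem Bnd.mono {D D' H H' : ℕ} {P : ℤ[X]} (h : Bnd D H P) (hD : D ≤ D') (hH : H ≤ H') :
    Bnd D' H' P :=
  ⟨h.1.trans hD, fun j => (h.2 j).trans (by exact_mod_cast hH)⟩

theorem Bnd.one {D : ℕ} : Bnd D 1 1 := by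
  refine ⟨by simp, fun j => ?_⟩
  rw [coeff_one]
  split_ifs <;> simp

theorem Bnd.mul {D D' H H' : ℕ} {P Q : ℤ[X]} (hP : Bnd D H P) (hQ : Bnd D' H' Q) :
    Bnd (D + D') ((D + 1) * H * H') (P * Q) := by
  refine ⟨(natDegree_mul_le).trans (Nat.add_le_add hP.1 hQ.1), fun j => ?_⟩
  rw [coeff_mul]
  have h1 : ∑ x ∈ antidiagonal j, P.coeff x.1 * Q.coeff x.2 =
      ∑ x ∈ (antidiagonal j).filter (fun x => x.1 ≤ D), P.coeff x.1 * Q.coeff x.2 := by
    symm
    refine Finset.sum_subset (Finset.filter_subset _ _) fun x hx hx' => ?_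
    rw [Finset.mem_filter, not_and] at hx'
    have h2 := hx' hx
    rw [coeff_eq_zero_of_natDegree_lt (by have := hP.1; omega), zero_mul]
  rw [h1]
  refine (Finset.abs_sum_le_sum_abs _ _).trans ?_
  have h2 : ((antidiagonal j).filter (fun x => x.1 ≤ D)).card ≤ D + 1 := by
    have h3 : ((antidiagonal j).filter (fun x => x.1 ≤ D)).card ≤ (range (D + 1)).card := by
      refine Finset.card_le_card_of_injOn (fun x => x.1) (fun x hx => ?_) ?_
      · have hx' := Finset.mem_coe.1 hx
        rw [Finset.mem_filter] at hx'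
        have h6 := hx'.2
        have h7 : x.1 < D + 1 := by omega
        exact Finset.mem_coe.2 (Finset.mem_range.2 h7)
      · intro x hx y hy hxy
        have hx' := Finset.mem_coe.1 hx
        have hy' := Finset.mem_coe.1 hy
        rw [Finset.mem_filter, HasAntidiagonal.mem_antidiagonal] at hx' hy'
        simp only at hxy
        ext
        · exact hxy
        · have h4 := hx'.1
          have h5 := hy'.1
          omega
    rwa [card_range] at h3
  calc ∑ x ∈ (antidiagonal j).filter (fun x => x.1 ≤ D), |P.coeff x.1 * Q.coeff x.2|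
      ≤ ∑ x ∈ (antidiagonal j).filter (fun x => x.1 ≤ D), ((H : ℤ) * H') := by
        refine Finset.sum_le_sum fun x _ => ?_
        rw [abs_mul]
        exact mul_le_mul (hP.2 _) (hQ.2 _) (abs_nonneg _) (by positivity)
    _ = ((antidiagonal j).filter (fun x => x.1 ≤ D)).card * ((H : ℤ) * H') := by
        rw [Finset.sum_const, nsmul_eq_mul]
    _ ≤ ((D + 1 : ℕ) : ℤ) * ((H : ℤ) * H') := by
        refine mul_le_mul_of_nonneg_right ?_ (by positivity)
        exact_mod_cast h2
    _ = (((D + 1) * H * H' : ℕ) : ℤ) := by push_cast; ring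

theorem Bnd.prod {D H : ℕ} {ι : Type*} (s : Finset ι) (f : ι → ℤ[X])
    (hf : ∀ i ∈ s, Bnd D H (f i)) : Bnd (s.card * D) (((D + 1) * H) ^ s.card) (∏ i ∈ s, f i) := by
  classical
  induction s using Finset.induction_on with
  | empty => simpa using Bnd.one (D := 0)
  | insert a s ha ih =>
    rw [Finset.prod_insert ha, Finset.card_insert_of_notMem ha]
    have h1 := (hf a (Finset.mem_insert_self _ _)).mul
      (ih fun i hi => hf i (Finset.mem_insert_of_mem hi))
    refine h1.mono (by rw [add_mul, one_mul, add_comm]) ?_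
    rw [pow_succ, mul_comm (((D + 1) * H) ^ s.card)]

theorem Bnd.sum {D H : ℕ} {ι : Type*} (s : Finset ι) (f : ι → ℤ[X])
    (hf : ∀ i ∈ s, Bnd D H (f i)) : Bnd D (s.card * H) (∑ i ∈ s, f i) := by
  refine ⟨natDegree_sum_le_of_forall_le _ _ fun i hi => (hf i hi).1, fun j => ?_⟩
  rw [finsetSum_coeff]
  refine (Finset.abs_sum_le_sum_abs _ _).trans ?_
  calc ∑ i ∈ s, |(f i).coeff j| ≤ ∑ i ∈ s, (H : ℤ) := Finset.sum_le_sum fun i hi => (hf i hi).2 j
    _ = ((s.card * H : ℕ) : ℤ) := by rw [Finset.sum_const, nsmul_eq_mul]; push_cast; ring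

/-- the determinant of a matrix of polynomials -/
theorem Bnd.det {D H d : ℕ} (A : Matrix (Fin d) (Fin d) ℤ[X]) (hA : ∀ i j, Bnd D H (A i j)) :
    Bnd (d * D) (d.factorial * ((D + 1) * H) ^ d) A.det := by
  rw [Matrix.det_apply']
  have h1 : ∀ σ ∈ (Finset.univ : Finset (Equiv.Perm (Fin d))),
      Bnd (d * D) (((D + 1) * H) ^ d) (((Equiv.Perm.sign σ : ℤ) : ℤ[X]) * ∏ i, A (σ i) i) := by
    intro σ _
    have h2 := Bnd.prod (Finset.univ : Finset (Fin d)) (fun i => A (σ i) i) fun i _ => hA _ _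
    rw [Finset.card_univ, Fintype.card_fin] at h2
    rcases Int.units_eq_one_or (Equiv.Perm.sign σ) with h3 | h3
    · rw [h3]
      simpa using h2
    · rw [h3]
      refine ⟨?_, fun j => ?_⟩
      · simpa using h2.1
      · have := h2.2 j
        simpa using this
  have h2 := Bnd.sum _ _ h1
  rw [Finset.card_univ, Fintype.card_perm, Fintype.card_fin] at h2
  exact h2

/-- an eigenvector: the determinant is small if the eigenvalue is small -/
theorem det_le {d : ℕ} (A : Matrix (Fin d) (Fin d) ℝ) (b : Fin d → ℝ) (y : ℝ)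
    (h : A.mulVec b = y • b) {M : ℝ} (hM : 0 ≤ M) (hA : ∀ i j, |A i j| ≤ M) (j : Fin d) :
    |A.det| * |b j| ≤ |y| * ((d.factorial * (M + 1) ^ d) * ∑ l, |b l|) := by
  have h1 : A.det • b = y • A.adjugate.mulVec b := by
    have h2 : A.adjugate.mulVec (A.mulVec b) = A.det • b := by
      rw [Matrix.mulVec_mulVec, Matrix.adjugate_mul, Matrix.smul_mulVec, Matrix.one_mulVec]
    rw [← h2, h, Matrix.mulVec_smul]
  have h3 := congrFun h1 j
  simp only [Pi.smul_apply, smul_eq_mul] at h3
  have h4 : ∀ i l, |A.adjugate i l| ≤ d.factorial * (M + 1) ^ d := by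
    intro i l
    rw [Matrix.adjugate_apply, Matrix.det_apply']
    refine (Finset.abs_sum_le_sum_abs _ _).trans ?_
    calc ∑ σ : Equiv.Perm (Fin d), |((Equiv.Perm.sign σ : ℤ) : ℝ) *
          ∏ i', A.updateRow l (Pi.single i 1) (σ i') i'|
        ≤ ∑ σ : Equiv.Perm (Fin d), (M + 1) ^ d := by
          refine Finset.sum_le_sum fun σ _ => ?_
          rw [abs_mul]
          have h5 : |((Equiv.Perm.sign σ : ℤ) : ℝ)| = 1 := by
            rcases Int.units_eq_one_or (Equiv.Perm.sign σ) with h3 | h3 <;> rw [h3] <;> simp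
          rw [h5, one_mul, Finset.abs_prod]
          calc ∏ i', |A.updateRow l (Pi.single i 1) (σ i') i'| ≤ ∏ i' : Fin d, (M + 1) := by
                refine Finset.prod_le_prod (fun _ _ => abs_nonneg _) fun i' _ => ?_
                rw [Matrix.updateRow_apply]
                split_ifs with h6
                · rw [Pi.single_apply]
                  split_ifs
                  · rw [abs_one]; linarith
                  · rw [abs_zero]; linarith
                · exact (hA _ _).trans (by linarith)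
            _ = (M + 1) ^ d := by rw [Finset.prod_const, Finset.card_univ, Fintype.card_fin]
      _ = d.factorial * (M + 1) ^ d := by
          rw [Finset.sum_const, Finset.card_univ, Fintype.card_perm, Fintype.card_fin, nsmul_eq_mul]
  have h5 : |A.adjugate.mulVec b j| ≤ (d.factorial * (M + 1) ^ d) * ∑ l, |b l| := by
    rw [Matrix.mulVec, dotProduct, Finset.mul_sum]
    refine (Finset.abs_sum_le_sum_abs _ _).trans (Finset.sum_le_sum fun l _ => ?_)
    rw [abs_mul]
    exact mul_le_mul_of_nonneg_right (h4 _ _) (abs_nonneg _)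
  rw [← abs_mul, h3, abs_mul]
  exact mul_le_mul_of_nonneg_left h5 (abs_nonneg _)

/-- a common denominator -/
theorem common_den {ι : Type*} [Fintype ι] (r : ι → ℚ) :
    ∃ N : ℕ, 1 ≤ N ∧ ∀ i, ∃ a : ℤ, (N : ℚ) * r i = a := by
  refine ⟨∏ t, (r t).den, Finset.prod_pos fun t _ => (r t).den_pos, fun t => ?_⟩
  obtain ⟨w, hw⟩ : (r t).den ∣ (∏ t, (r t).den) := Finset.dvd_prod_of_mem _ (Finset.mem_univ t)
  refine ⟨w * (r t).num, ?_⟩
  rw [hw]
  push_cast
  rw [mul_comm ((r t).den : ℚ), mul_assoc, mul_comm ((r t).den : ℚ), Rat.mul_den_eq_num]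

theorem beat {q : ℕ → ℕ} (hq : ∀ k, 2 ≤ q k) (A : ℝ) (B : ℕ) :
    ∃ κ : ℕ, ∀ k, A * (q k : ℝ) ^ B < (q k : ℝ) ^ κ := by
  obtain ⟨n, hn⟩ := pow_unbounded_of_one_lt A (by norm_num : (1 : ℝ) < 2)
  refine ⟨n + B, fun k => ?_⟩
  have h2 : (2 : ℝ) ≤ q k := by exact_mod_cast hq k
  have h3 : (0 : ℝ) < (q k : ℝ) ^ B := by positivity
  rw [pow_add]
  exact mul_lt_mul_of_pos_right (hn.trans_le (pow_le_pow_left₀ (by norm_num) h2 n)) h3

end Pool.Agent.N449.LZ
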