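import Pool.Agent.R347.LF.Out
import Pool.Agent.N449.LZ.Bnd

/-!
# Transcendence over fields of numbers with good approximations in a number field
-/

set_option autoImplicit false

namespace Pool.Agent.N449.LZ

open Polynomial Module Pool.Agent.R347.LF

section mat

variable {F : Type*} [Field F] [Algebra ℚ F] {d D : ℕ}

/-- the matrix of polynomials -/
noncomputable def mat (Z : Fin d → Matrix (Fin d) (Fin d) ℤ) (m : Fin (D + 1) → Fin d → ℤ) :
    Matrix (Fin d) (Fin d) ℤ[X] :=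
  Matrix.of fun a b => ∑ i : Fin (D + 1), ∑ l : Fin d, C (m i l * Z l a b) * X ^ (i : ℕ)

theorem mat_bnd (Z : Fin d → Matrix (Fin d) (Fin d) ℤ) (m : Fin (D + 1) → Fin d → ℤ) {z H : ℕ}
    (hZ : ∀ l a b, |Z l a b| ≤ z) (hm : ∀ i l, |m i l| ≤ H) (a b : Fin d) :
    Bnd D ((D + 1) * (d * (H * z))) (mat Z m a b) := by
  have h1 : ∀ (i : Fin (D + 1)) (l : Fin d), Bnd D (H * z) (C (m i l * Z l a b) * X ^ (i : ℕ)) := by
    intro i l
    refine ⟨(natDegree_C_mul_X_pow_le _ _).trans (by have := i.2; omega), fun j => ?_⟩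
    rw [coeff_C_mul_X_pow]
    split_ifs
    · rw [abs_mul]
      push_cast
      exact mul_le_mul (hm _ _) (hZ _ _ _) (abs_nonneg _) (by positivity)
    · rw [abs_zero]; positivity
  have h2 : ∀ i : Fin (D + 1), Bnd D (d * (H * z)) (∑ l : Fin d, C (m i l * Z l a b) * X ^ (i : ℕ)) := by
    intro i
    have h3 := Bnd.sum (Finset.univ : Finset (Fin d)) (fun l => C (m i l * Z l a b) * X ^ (i : ℕ))
      fun l _ => h1 i l
    rwa [Finset.card_univ, Fintype.card_fin] at h3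
  have h3 := Bnd.sum (Finset.univ : Finset (Fin (D + 1)))
    (fun i => ∑ l : Fin d, C (m i l * Z l a b) * X ^ (i : ℕ)) fun i _ => h2 i
  rwa [Finset.card_univ, Fintype.card_fin] at h3

/-- the values of the determinant at integers are norms -/
theorem det_ne_zero (B : Basis (Fin d) ℚ F) (Δ : ℕ) (hΔ : 1 ≤ Δ)
    (Z : Fin d → Matrix (Fin d) (Fin d) ℤ)
    (hZ : ∀ l a b, (Δ : ℚ) * Algebra.leftMulMatrix B (B l) a b = (Z l a b : ℚ))
    (m : Fin (D + 1) → Fin d → ℤ) (h : ∃ i, ∑ l, (m i l : ℚ) • B l ≠ 0) :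
    (mat Z m).det ≠ 0 := by
  classical
  have : CharZero F := algebraRat.charZero F
  set G : F[X] := ∑ i : Fin (D + 1), C (∑ l, (m i l : ℚ) • B l) * X ^ (i : ℕ) with hG
  have hG0 : G ≠ 0 := by
    obtain ⟨i, hi⟩ := h
    intro h0
    apply hi
    have h1 := congrArg (fun P : F[X] => P.coeff i) h0
    simp only [hG, finsetSum_coeff, coeff_C_mul_X_pow, coeff_zero] at h1
    rw [Finset.sum_eq_single i] at h1
    · simpa using h1
    · intro j _ hj
      rw [if_neg]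
      intro h2
      exact hj (Fin.ext h2.symm)
    · intro h2
      exact absurd (Finset.mem_univ _) h2
  obtain ⟨s, hs⟩ : ∃ s : ℕ, G.eval (s : F) ≠ 0 := by
    by_contra hcon
    push Not at hcon
    apply hG0
    refine Polynomial.eq_zero_of_infinite_isRoot G ?_
    refine (Set.infinite_range_of_injective (Nat.cast_injective (R := F))).mono ?_
    rintro _ ⟨n, rfl⟩
    exact hcon n
  intro h0
  have h1 : (mat Z m).det.eval (s : ℤ) = 0 := by rw [h0, eval_zero]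
  have h2 : (mat Z m).det.eval (s : ℤ) = ((mat Z m).map (eval (s : ℤ))).det := by
    have := (Polynomial.evalRingHom (s : ℤ)).map_det (mat Z m)
    exact this
  have h3 : (((mat Z m).map (eval (s : ℤ))).det : ℚ) =
      (((mat Z m).map (eval (s : ℤ))).map (Int.castRingHom ℚ)).det := by
    have := (Int.castRingHom ℚ).map_det ((mat Z m).map (eval (s : ℤ)))
    exact this
  have h4 : ((mat Z m).map (eval (s : ℤ))).map (Int.castRingHom ℚ) =
      (Δ : ℚ) • Algebra.leftMulMatrix B (G.eval (s : F)) := by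
    ext a b
    have e1 : G.eval (s : F) = ∑ i : Fin (D + 1), ∑ l, ((m i l : ℚ) * (s : ℚ) ^ (i : ℕ)) • B l := by
      rw [hG, eval_finsetSum]
      refine Finset.sum_congr rfl fun i _ => ?_
      rw [eval_mul, eval_C, eval_pow, eval_X, Finset.sum_mul]
      refine Finset.sum_congr rfl fun l _ => ?_
      have e2 : ((s : F)) ^ (i : ℕ) = algebraMap ℚ F ((s : ℚ) ^ (i : ℕ)) := by simp
      rw [e2, mul_comm, ← Algebra.smul_def, smul_smul, mul_comm]
    rw [e1]
    simp only [map_sum, map_smul, Matrix.smul_apply, Matrix.sum_apply, Matrix.map_apply, smul_eq_mul]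
    rw [mat, Matrix.of_apply, eval_finsetSum, map_sum, Finset.mul_sum]
    refine Finset.sum_congr rfl fun i _ => ?_
    rw [eval_finsetSum, map_sum, Finset.mul_sum]
    refine Finset.sum_congr rfl fun l _ => ?_
    rw [eval_mul, eval_C, eval_pow, eval_X]
    simp only [eq_intCast]
    push_cast
    rw [← hZ]
    ring
  rw [h2] at h1
  rw [h1, Int.cast_zero, h4, Matrix.det_smul, Fintype.card_fin] at h3
  have h5 : (Algebra.leftMulMatrix B (G.eval (s : F))).det = Algebra.norm ℚ (G.eval (s : F)) :=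
    (Algebra.norm_eq_matrix_det B _).symm
  rw [h5] at h3
  have h6 : FiniteDimensional ℚ F := B.finiteDimensional_of_finite
  have h7 : Algebra.norm ℚ (G.eval (s : F)) ≠ 0 := Algebra.norm_ne_zero_iff.2 hs
  have h8 : (Δ : ℚ) ≠ 0 := by
    have : Δ ≠ 0 := by omega
    exact_mod_cast this
  exact mul_ne_zero (pow_ne_zero _ h8) h7 h3.symm

end mat

/-- the eigenvector -/
theorem eigen {F : IntermediateField ℚ ℝ} {d D : ℕ} (B : Basis (Fin d) ℚ F) (Δ : ℕ)
    (Z : Fin d → Matrix (Fin d) (Fin d) ℤ)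
    (hZ : ∀ l a b, (Δ : ℚ) * Algebra.leftMulMatrix B (B l) a b = (Z l a b : ℚ))
    (m : Fin (D + 1) → Fin d → ℤ) (t : ℝ) :
    ((mat Z m).map (aeval t)).transpose.mulVec (fun j => (B j : ℝ)) =
      ((Δ : ℝ) * ∑ i : Fin (D + 1), (∑ l, (m i l : ℝ) * (B l : ℝ)) * t ^ (i : ℕ)) •
        fun j => (B j : ℝ) := by
  have hBB : ∀ l j, (Δ : ℝ) * ((B l : ℝ) * (B j : ℝ)) = ∑ a, (Z l a j : ℝ) * (B a : ℝ) := by
    intro l j
    have h1 : B l * B j = ∑ a, Algebra.leftMulMatrix B (B l) a j • B a := by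
      have h2 := B.sum_repr (B l * B j)
      rw [← h2]
      refine Finset.sum_congr rfl fun a _ => ?_
      rw [Algebra.leftMulMatrix_eq_repr_mul]
    have h3 := congrArg (fun x : F => (x : ℝ)) h1
    beta_reduce at h3
    have h4 : ((∑ a, Algebra.leftMulMatrix B (B l) a j • B a : F) : ℝ) =
        ∑ a, ((Algebra.leftMulMatrix B (B l) a j : ℚ) : ℝ) * (B a : ℝ) := by
      push_cast
      refine Finset.sum_congr rfl fun a _ => ?_
      exact Rat.smul_def _ _
    rw [h4] at h3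
    have h5 : ((B l * B j : F) : ℝ) = (B l : ℝ) * (B j : ℝ) := rfl
    rw [← h5, h3, Finset.mul_sum]
    refine Finset.sum_congr rfl fun a _ => ?_
    have h6 := congrArg (fun x : ℚ => (x : ℝ)) (hZ l a j)
    push_cast at h6
    rw [← h6]
    ring
  funext j
  rw [Matrix.mulVec, dotProduct]
  simp only [Matrix.transpose_apply, Matrix.map_apply, Pi.smul_apply, smul_eq_mul, mat,
    Matrix.of_apply, map_sum, map_mul, map_pow, aeval_X, aeval_C]
  have e1 : ∀ a : Fin d, (∑ i : Fin (D + 1), ∑ l : Fin d,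
      (algebraMap ℤ ℝ (m i l) * algebraMap ℤ ℝ (Z l a j)) * t ^ (i : ℕ)) * (B a : ℝ) =
      ∑ i : Fin (D + 1), ∑ l : Fin d, (m i l : ℝ) * t ^ (i : ℕ) * ((Z l a j : ℝ) * (B a : ℝ)) := by
    intro a
    rw [Finset.sum_mul]
    refine Finset.sum_congr rfl fun i _ => ?_
    rw [Finset.sum_mul]
    refine Finset.sum_congr rfl fun l _ => ?_
    simp only [algebraMap_int_eq, eq_intCast]
    ring
  rw [Finset.sum_congr rfl fun a _ => e1 a, Finset.sum_comm, Finset.mul_sum, Finset.sum_mul]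
  refine Finset.sum_congr rfl fun i _ => ?_
  rw [Finset.sum_comm, Finset.sum_mul, Finset.mul_sum, Finset.sum_mul]
  refine Finset.sum_congr rfl fun l _ => ?_
  rw [← Finset.mul_sum, ← hBB]
  ring

theorem abs_aeval_le {D H : ℕ} {P : ℤ[X]} (hP : Bnd D H P) (t : ℝ) :
    |aeval t P| ≤ (H : ℝ) * ∑ i ∈ Finset.range (D + 1), |t| ^ i := by
  rw [aeval_eq_sum_range' (n := D + 1) (by have := hP.1; omega), Finset.mul_sum]
  refine (Finset.abs_sum_le_sum_abs _ _).trans (Finset.sum_le_sum fun i _ => ?_)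
  rw [zsmul_eq_mul, abs_mul, abs_pow]
  refine mul_le_mul_of_nonneg_right ?_ (by positivity)
  have := hP.2 i
  rw [← Int.cast_abs]
  exact_mod_cast this

/-- a transcendence measure which for a fixed degree is a power of the height -/
def Meas (t : ℝ) : Prop := ∀ D : ℕ, ∃ (N : ℕ) (c : ℝ), 0 < c ∧ ∀ P : ℤ[X], P ≠ 0 → ∀ H : ℕ, 1 ≤ H →
  Bnd D H P → c ≤ (H : ℝ) ^ N * |aeval t P|

/-- **Numbers with a transcendence measure are transcendental over the fields.** -/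
theorem trans {q : ℕ → ℕ} (hq : ∀ k, 2 ≤ q k) {F : IntermediateField ℚ ℝ} [FiniteDimensional ℚ F]
    (L : IntermediateField ℚ ℝ) (hL : ∀ x, x ∈ L → Ap q F x) {t : ℝ} (ht : Meas t) :
    Transcendental L t := by
  classical
  rintro ⟨P, hP0, hPt⟩
  set D := P.natDegree with hD
  set d := finrank ℚ F with hd
  have hd1 : 1 ≤ d := Nat.one_le_iff_ne_zero.2 finrank_pos.ne'
  let B : Basis (Fin d) ℚ F := finBasis ℚ F
  set x : Fin (D + 1) → ℝ := fun i => (P.coeff i : ℝ) with hx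
  have hxA : ∀ i, Ap q F (x i) := fun i => hL _ (P.coeff i).2
  obtain ⟨g, hg⟩ := approx_coord hq B x hxA
  -- the structure constants
  obtain ⟨Δ, hΔ1, hΔ⟩ := common_den (fun w : Fin d × Fin d × Fin d =>
    Algebra.leftMulMatrix B (B w.1) w.2.1 w.2.2)
  choose Z' hZ' using hΔ
  set Z : Fin d → Matrix (Fin d) (Fin d) ℤ := fun l a b => Z' (l, a, b) with hZdef
  have hZ : ∀ l a b, (Δ : ℚ) * Algebra.leftMulMatrix B (B l) a b = (Z l a b : ℚ) := fun l a b =>
    hZ' (l, a, b)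
  obtain ⟨z, hz1, hz⟩ : ∃ z : ℕ, 1 ≤ z ∧ ∀ l a b, |Z l a b| ≤ z := by
    refine ⟨∑ w, (Z' w).natAbs + 1, by omega, fun l a b => ?_⟩
    have h1 : (Z' (l, a, b)).natAbs ≤ ∑ w, (Z' w).natAbs :=
      Finset.single_le_sum (f := fun w => (Z' w).natAbs) (fun _ _ => Nat.zero_le _) (Finset.mem_univ _)
    have h2 : |Z l a b| = ((Z' (l, a, b)).natAbs : ℤ) := Int.abs_eq_natAbs _
    rw [h2]
    push_cast
    have h3 : ((Z' (l, a, b)).natAbs : ℤ) ≤ ∑ w, ((Z' w).natAbs : ℤ) := by exact_mod_cast h1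
    have h4 : (∑ w, ((Z' w).natAbs : ℤ)) = ∑ w, |Z' w| := by
      refine Finset.sum_congr rfl fun w _ => (Int.abs_eq_natAbs _).symm
    linarith
  -- an entry of the basis
  set j : Fin d := ⟨0, hd1⟩ with hj
  have hbj : (B j : ℝ) ≠ 0 := by
    have h1 := B.ne_zero j
    intro h
    exact h1 (Subtype.ext h)
  have hbj0 : 0 < |(B j : ℝ)| := abs_pos.2 hbj
  obtain ⟨N, c, hc, hmeas⟩ := ht (d * D)
  -- the leading coefficient
  have hxD : (x ⟨D, Nat.lt_succ_self D⟩) ≠ 0 := by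
    have h1 : P.coeff D ≠ 0 := by
      rw [hD, coeff_natDegree]
      exact leadingCoeff_ne_zero.2 hP0
    intro h
    exact h1 (Subtype.ext h)
  set T : ℝ := ∑ i ∈ Finset.range (D + 1), |t| ^ i with hT
  have hT0 : 0 ≤ T := Finset.sum_nonneg fun _ _ => by positivity
  set S : ℝ := ∑ l, |(B l : ℝ)| with hS
  have hS0 : 0 ≤ S := Finset.sum_nonneg fun _ _ => abs_nonneg _
  set E : ℕ := (D + 1) * (d * z) with hE
  have hE1 : 1 ≤ E := Nat.mul_pos (by omega) (Nat.mul_pos hd1 hz1)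
  set C0 : ℝ := ((d.factorial * ((D + 1) * E) ^ d : ℕ) : ℝ) ^ N * (Δ * T * (d.factorial *
    (E * T + 1) ^ d * S)) with hC0
  have hC00 : 0 ≤ C0 := by positivity
  set xD := x ⟨D, Nat.lt_succ_self D⟩ with hxDdef
  have hxD0 : 0 < |xD| := abs_pos.2 hxD
  obtain ⟨κ, hκ⟩ := beat hq (C0 / (c * |(B j : ℝ)|) + 1 / |xD|) (g * d * N + g + g * d)
  obtain ⟨k₀, hk₀⟩ := hg κ
  obtain ⟨v, m, hv1, hv2, hm, hxm⟩ := hk₀ k₀ le_rfl
  have hq2 := hq k₀
  have hκ' := hκ k₀
  set Q : ℕ := q k₀ with hQ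
  have hQ1 : (1 : ℝ) ≤ (Q : ℝ) := by exact_mod_cast (by omega : 1 ≤ Q)
  have hQp : (0 : ℝ) < (Q : ℝ) := by linarith
  have hQκ : (0 : ℝ) < (Q : ℝ) ^ κ := by positivity
  have hv0 : (0 : ℝ) < v := by exact_mod_cast (by omega : 0 < v)
  -- the two consequences of the choice of the exponent
  have hA : C0 / (c * |(B j : ℝ)|) * (Q : ℝ) ^ (g * d * N + g + g * d) < (Q : ℝ) ^ κ := by
    refine lt_of_le_of_lt ?_ hκ'
    refine mul_le_mul_of_nonneg_right ?_ (by positivity)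
    have : 0 ≤ 1 / |xD| := by positivity
    linarith
  have hA' : 1 / |xD| < (Q : ℝ) ^ κ := by
    refine lt_of_le_of_lt ?_ hκ'
    have h1 : 1 / |xD| ≤ 1 / |xD| * (Q : ℝ) ^ (g * d * N + g + g * d) :=
      le_mul_of_one_le_right (by positivity) (one_le_pow₀ hQ1)
    refine h1.trans (mul_le_mul_of_nonneg_right ?_ (by positivity))
    have : 0 ≤ C0 / (c * |(B j : ℝ)|) := by positivity
    linarith
  -- the determinant does not vanish
  have hne : ∃ i, ∑ l, (m i l : ℚ) • B l ≠ 0 := by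
    refine ⟨⟨D, Nat.lt_succ_self D⟩, fun h => ?_⟩
    have h1 : (∑ l, (m ⟨D, Nat.lt_succ_self D⟩ l : ℝ) * (B l : ℝ)) = 0 := by
      have h2 := congrArg (fun x : F => (x : ℝ)) h
      beta_reduce at h2
      have h3 : ((∑ l, (m ⟨D, Nat.lt_succ_self D⟩ l : ℚ) • B l : F) : ℝ) =
          ∑ l, (m ⟨D, Nat.lt_succ_self D⟩ l : ℝ) * (B l : ℝ) := by
        push_cast
        refine Finset.sum_congr rfl fun a _ => ?_
        rw [Rat.smul_def]
        push_cast
        rfl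
      rw [← h3, h2]
      rfl
    have h2 := hxm ⟨D, Nat.lt_succ_self D⟩
    rw [h1, zero_div, sub_zero] at h2
    have h3 : 1 / |xD| * |xD| < (Q : ℝ) ^ κ * |xD| := mul_lt_mul_of_pos_right hA' hxD0
    have h4 : (Q : ℝ) ^ κ * |xD| ≤ 1 := by
      calc (Q : ℝ) ^ κ * |xD| ≤ (Q : ℝ) ^ κ * ((Q : ℝ) ^ κ)⁻¹ := mul_le_mul_of_nonneg_left h2 hQκ.le
        _ = 1 := mul_inv_cancel₀ hQκ.ne'
    rw [one_div, inv_mul_cancel₀ hxD0.ne'] at h3
    linarith
  have hdet := det_ne_zero B Δ hΔ1 Z hZ m hne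
  have hent : ∀ a b, Bnd D ((D + 1) * (d * (Q ^ g * z))) (mat Z m a b) := fun a b =>
    mat_bnd Z m hz (fun i l => by exact_mod_cast hm i l) a b
  set H0 : ℕ := (D + 1) * (d * (Q ^ g * z)) with hH0
  have hH0E : H0 = E * Q ^ g := by rw [hH0, hE]; ring
  have hdb := Bnd.det (mat Z m) hent
  have hQg1 : 1 ≤ Q ^ g := Nat.one_le_pow _ _ (by omega)
  have hH01 : 1 ≤ H0 := by rw [hH0E]; exact Nat.mul_pos hE1 hQg1
  have hH1 : 1 ≤ d.factorial * ((D + 1) * H0) ^ d :=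
    Nat.mul_pos d.factorial_pos (Nat.pow_pos (Nat.mul_pos (by omega) hH01))
  have hme := hmeas _ hdet _ hH1 hdb
  -- the small value
  set y : ℝ := ∑ i : Fin (D + 1), (∑ l, (m i l : ℝ) * (B l : ℝ)) * t ^ (i : ℕ) with hy
  have hy1 : |y| ≤ v * ((Q : ℝ) ^ κ)⁻¹ * T := by
    have h1 : ∑ i : Fin (D + 1), x i * t ^ (i : ℕ) = 0 := by
      rw [aeval_eq_sum_range] at hPt
      rw [← hPt, Finset.sum_range]
      refine Finset.sum_congr rfl fun i _ => ?_
      rw [hx]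
      rfl
    have h2 : y = -(v * ∑ i : Fin (D + 1), (x i - (∑ l, (m i l : ℝ) * (B l : ℝ)) / v) * t ^ (i : ℕ)) := by
      have h3 : ∑ i : Fin (D + 1), (x i - (∑ l, (m i l : ℝ) * (B l : ℝ)) / v) * t ^ (i : ℕ) =
          ∑ i : Fin (D + 1), x i * t ^ (i : ℕ) - (1 / v) * y := by
        rw [hy, Finset.mul_sum, ← Finset.sum_sub_distrib]
        refine Finset.sum_congr rfl fun i _ => ?_
        ring
      rw [h3, h1]
      field_simp
      ring
    rw [h2, abs_neg, abs_mul, abs_of_pos hv0, mul_assoc]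
    refine mul_le_mul_of_nonneg_left ?_ hv0.le
    refine (Finset.abs_sum_le_sum_abs _ _).trans ?_
    rw [hT, Finset.sum_range, Finset.mul_sum]
    refine Finset.sum_le_sum fun i _ => ?_
    rw [abs_mul, abs_pow]
    exact mul_le_mul_of_nonneg_right (hxm i) (by positivity)
  -- the eigenvector
  have heig := eigen B Δ Z hZ m t
  rw [← hy] at heig
  have hAe : ∀ a b, |((mat Z m).map (aeval t)).transpose a b| ≤ (H0 : ℝ) * T := by
    intro a b
    rw [Matrix.transpose_apply, Matrix.map_apply]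
    exact abs_aeval_le (hent b a) t
  have hdl := det_le _ _ _ heig (M := (H0 : ℝ) * T) (by positivity) hAe j
  have hdd : ((mat Z m).map (aeval t)).transpose.det = aeval t (mat Z m).det := by
    rw [Matrix.det_transpose]
    exact ((aeval t : ℤ[X] →ₐ[ℤ] ℝ).toRingHom.map_det (mat Z m)).symm
  rw [hdd] at hdl
  -- the comparison
  have hcomp : c * |(B j : ℝ)| ≤ C0 * (Q : ℝ) ^ (g * d * N + g + g * d) * ((Q : ℝ) ^ κ)⁻¹ := by
    have hQg : (1 : ℝ) ≤ (Q : ℝ) ^ g := one_le_pow₀ hQ1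
    have e1 : (((d.factorial * ((D + 1) * H0) ^ d : ℕ) : ℝ)) ^ N =
        ((d.factorial * ((D + 1) * E) ^ d : ℕ) : ℝ) ^ N * (Q : ℝ) ^ (g * d * N) := by
      rw [hH0E, pow_mul (Q : ℝ) (g * d) N, ← mul_pow]
      congr 1
      push_cast
      rw [pow_mul (Q : ℝ) g d, mul_assoc, ← mul_pow]
      ring
    have e2 : (H0 : ℝ) * T + 1 ≤ (E * T + 1) * (Q : ℝ) ^ g := by
      rw [hH0E]
      push_cast
      have : (E : ℝ) * (Q : ℝ) ^ g * T = E * T * (Q : ℝ) ^ g := by ring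
      rw [this, add_mul, one_mul]
      linarith
    have e3 : |(Δ : ℝ) * y| ≤ Δ * T * ((Q : ℝ) ^ g * ((Q : ℝ) ^ κ)⁻¹) := by
      rw [abs_mul, Nat.abs_cast]
      have h5 : (v : ℝ) ≤ (Q : ℝ) ^ g := by exact_mod_cast hv2
      calc (Δ : ℝ) * |y| ≤ Δ * (v * ((Q : ℝ) ^ κ)⁻¹ * T) := mul_le_mul_of_nonneg_left hy1 (by positivity)
        _ ≤ Δ * ((Q : ℝ) ^ g * ((Q : ℝ) ^ κ)⁻¹ * T) := by
            refine mul_le_mul_of_nonneg_left ?_ (by positivity)
            refine mul_le_mul_of_nonneg_right ?_ hT0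
            exact mul_le_mul_of_nonneg_right h5 (by positivity)
        _ = _ := by ring
    have e4 : ((H0 : ℝ) * T + 1) ^ d ≤ (E * T + 1) ^ d * (Q : ℝ) ^ (g * d) := by
      rw [pow_mul, ← mul_pow]
      exact pow_le_pow_left₀ (by positivity) e2 d
    calc c * |(B j : ℝ)|
        ≤ ((((d.factorial * ((D + 1) * H0) ^ d : ℕ) : ℝ)) ^ N * |aeval t (mat Z m).det|) * |(B j : ℝ)| :=
          mul_le_mul_of_nonneg_right hme hbj0.le
      _ = (((d.factorial * ((D + 1) * H0) ^ d : ℕ) : ℝ)) ^ N * (|aeval t (mat Z m).det| * |(B j : ℝ)|) := by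
          ring
      _ ≤ (((d.factorial * ((D + 1) * H0) ^ d : ℕ) : ℝ)) ^ N *
          (|(Δ : ℝ) * y| * ((d.factorial * ((H0 : ℝ) * T + 1) ^ d) * S)) :=
          mul_le_mul_of_nonneg_left hdl (by positivity)
      _ ≤ (((d.factorial * ((D + 1) * E) ^ d : ℕ) : ℝ) ^ N * (Q : ℝ) ^ (g * d * N)) *
          ((Δ * T * ((Q : ℝ) ^ g * ((Q : ℝ) ^ κ)⁻¹)) *
            ((d.factorial * ((E * T + 1) ^ d * (Q : ℝ) ^ (g * d))) * S)) := by
          rw [e1]
          refine mul_le_mul_of_nonneg_left ?_ (by positivity)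
          refine mul_le_mul e3 ?_ (by positivity) (by positivity)
          refine mul_le_mul_of_nonneg_right ?_ hS0
          exact mul_le_mul_of_nonneg_left e4 (by positivity)
      _ = C0 * (Q : ℝ) ^ (g * d * N + g + g * d) * ((Q : ℝ) ^ κ)⁻¹ := by
          rw [hC0, pow_add, pow_add]
          ring
  have hcb : 0 < c * |(B j : ℝ)| := mul_pos hc hbj0
  have h1 : c * |(B j : ℝ)| * (Q : ℝ) ^ κ ≤ C0 * (Q : ℝ) ^ (g * d * N + g + g * d) := by
    calc c * |(B j : ℝ)| * (Q : ℝ) ^ κ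
        ≤ (C0 * (Q : ℝ) ^ (g * d * N + g + g * d) * ((Q : ℝ) ^ κ)⁻¹) * (Q : ℝ) ^ κ :=
          mul_le_mul_of_nonneg_right hcomp hQκ.le
      _ = _ := by rw [mul_assoc, inv_mul_cancel₀ hQκ.ne', mul_one]
  have h2 : (Q : ℝ) ^ κ ≤ C0 / (c * |(B j : ℝ)|) * (Q : ℝ) ^ (g * d * N + g + g * d) := by
    rw [div_mul_eq_mul_div, le_div_iff₀ hcb]
    linarith
  linarith

end Pool.Agent.N449.LZ
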